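import Mathlib

set_option autoImplicit false

namespace Pool.Agent.MP_c2a681_co.H6

/-- One relaxed move on Gray codes; all toggled places lie in `E`. -/
def Step (E : Finset ℕ) (g g' : ℕ → Prop) : Prop :=
  (∃ r, r ∈ E ∧ (g' r ↔ ¬ g r) ∧ ∀ x, x ≠ r → (g' x ↔ g x)) ∨
  (∃ s d, s ∈ E ∧ s + 1 ∈ E ∧ s + 2 * d + 3 ∈ E ∧ g (s + 2 * d + 2) ∧
    (∀ x, s + 1 < x → x < s + 2 * d + 2 → ¬ g x) ∧
    (g' s ↔ ¬ g s) ∧ (g' (s + 1) ↔ ¬ g (s + 1)) ∧ (g' (s + 2 * d + 3) ↔ ¬ g (s + 2 * d + 3)) ∧
    ∀ x, x ≠ s → x ≠ s + 1 → x ≠ s + 2 * d + 3 → (g' x ↔ g x))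

/-- Reachable from the empty code in exactly `k` moves. -/
inductive Reach (E : Finset ℕ) : ℕ → (ℕ → Prop) → Prop
  | zero (g : ℕ → Prop) (h : ∀ x, ¬ g x) : Reach E 0 g
  | step (k : ℕ) (g g' : ℕ → Prop) (h : Reach E k g) (hs : Step E g g') : Reach E (k + 1) g'

theorem Step.mono {E E' : Finset ℕ} (hE : E ⊆ E') {g g' : ℕ → Prop} (h : Step E g g') :
    Step E' g g' := by
  rcases h with ⟨r, hr, h⟩ | ⟨s, d, h1, h2, h3, h⟩
  · exact Or.inl ⟨r, hE hr, h⟩
  · exact Or.inr ⟨s, d, hE h1, hE h2, hE h3, h⟩

theorem Reach.mono {E E' : Finset ℕ} (hE : E ⊆ E') {k : ℕ} {g : ℕ → Prop} (h : Reach E k g) :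
    Reach E' k g := by
  induction h with
  | zero g h => exact Reach.zero g h
  | step k g g' _ hs ih => exact Reach.step k g g' ih (hs.mono hE)

theorem Reach.sub {E : Finset ℕ} {k : ℕ} {g : ℕ → Prop} (h : Reach E k g) :
    ∀ x, g x → x ∈ E := by
  induction h with
  | zero g h => intro x hx; exact absurd hx (h x)
  | step k g g' _ hs ih =>
    intro x hx
    rcases hs with ⟨r, hr, _, h⟩ | ⟨s, d, h1, h2, h3, _, _, _, _, _, h⟩
    · by_cases hxr : x = r
      · exact hxr ▸ hr
      · exact ih x ((h x hxr).1 hx)
    · by_cases e1 : x = s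
      · exact e1 ▸ h1
      by_cases e2 : x = s + 1
      · exact e2 ▸ h2
      by_cases e3 : x = s + 2 * d + 3
      · exact e3 ▸ h3
      exact ih x ((h x e1 e2 e3).1 hx)

open Classical in
/-- The infinite dihedral invariant: apply the reflection `v ↦ (-1)^i - v` at each marked place. -/
noncomputable def V (f : ℕ → Prop) : ℕ → ℤ
  | 0 => 0
  | i + 1 => if f i then (-1) ^ i - V f i else V f i

theorem V_pos {f : ℕ → Prop} {i : ℕ} (h : f i) : V f (i + 1) = (-1) ^ i - V f i := by
  simp [V, h]

theorem V_neg {f : ℕ → Prop} {i : ℕ} (h : ¬ f i) : V f (i + 1) = V f i := by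
  simp [V, h]

theorem V_congr_from {f f' : ℕ → Prop} {a : ℕ} (h0 : V f' a = V f a) {b : ℕ}
    (h : ∀ y, a ≤ y → y < b → (f' y ↔ f y)) (hab : a ≤ b) : V f' b = V f b := by
  induction b, hab using Nat.le_induction with
  | base => exact h0
  | succ b hab ih =>
    have ih' := ih (fun y h1 h2 => h y h1 (by omega))
    have hb := h b hab (by omega)
    by_cases hf : f b
    · rw [V_pos hf, V_pos (hb.2 hf), ih']
    · rw [V_neg hf, V_neg (fun h' => hf (hb.1 h')), ih']

theorem V_const {f : ℕ → Prop} {a b : ℕ} (h : ∀ y, a ≤ y → y < b → ¬ f y) (hab : a ≤ b) :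
    V f b = V f a := by
  induction b, hab using Nat.le_induction with
  | base => rfl
  | succ b hab ih =>
    rw [V_neg (h b hab (by omega)), ih (fun y h1 h2 => h y h1 (by omega))]

theorem V_toggle {f f' : ℕ → Prop} {a d : ℕ} (h1 : f' a ↔ ¬ f a)
    (h2 : f' (a + 2 * d + 2) ↔ ¬ f (a + 2 * d + 2))
    (h3 : ∀ y, a < y → y < a + 2 * d + 2 → ¬ f y)
    (h4 : ∀ y, y ≠ a → y ≠ a + 2 * d + 2 → (f' y ↔ f y)) {N : ℕ} (hN : a + 2 * d + 2 < N) :
    V f' N = V f N := by
  have e0 : V f' a = V f a :=
    V_congr_from (f := f) (f' := f') (a := 0) (b := a) rfl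
      (fun y _ hy => h4 y (by omega) (by omega)) (Nat.zero_le _)
  have e1 : V f' (a + 1) = (-1) ^ a - V f (a + 1) := by
    by_cases hf : f a
    · rw [V_pos hf, V_neg (fun h' => (h1.1 h') hf), e0]; ring
    · rw [V_neg hf, V_pos (h1.2 hf), e0]
  have e2 : V f (a + 2 * d + 2) = V f (a + 1) :=
    V_const (fun y hy1 hy2 => h3 y (by omega) hy2) (by omega)
  have e3 : V f' (a + 2 * d + 2) = V f' (a + 1) :=
    V_const (fun y hy1 hy2 h' => h3 y (by omega) hy2 ((h4 y (by omega) (by omega)).1 h')) (by omega)
  have hp : ((-1 : ℤ)) ^ (a + 2 * d + 2) = (-1) ^ a := by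
    rw [pow_add, pow_add, pow_mul]; norm_num
  have e4 : V f' (a + 2 * d + 2 + 1) = V f (a + 2 * d + 2 + 1) := by
    by_cases hf : f (a + 2 * d + 2)
    · rw [V_pos hf, V_neg (fun h' => (h2.1 h') hf), e2, e3, e1, hp]
    · rw [V_neg hf, V_pos (h2.2 hf), e2, e3, e1, hp]; ring
  exact V_congr_from e4 (fun y hy _ => h4 y (by omega) (by omega)) (by omega)

/-- Places carrying two adjacent marks. -/
def F (g : ℕ → Prop) (y : ℕ) : Prop := g (y + 1) ∧ g y

theorem main_inv {E : Finset ℕ} (z : ℕ → ℕ) (hz : ∀ x ∈ E, z (x + 1) = z x) (N : ℕ)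
    (hN : ∀ x ∈ E, x < N) {k : ℕ} {g : ℕ → Prop} (h : Reach E k g) :
    ∃ B : Finset ℕ, B.card ≤ k ∧ (∀ x, g x → z x ∈ B) ∧
      (B.card = k → (∀ x y, g x → g y → z x = z y → x ≤ y + 1) ∧ V (F g) N = 0) := by
  induction h with
  | zero g h =>
    refine ⟨∅, by simp, fun x hx => absurd hx (h x), fun _ => ⟨fun x y hx => absurd hx (h x), ?_⟩⟩
    have : V (F g) N = V (F g) 0 := V_const (fun y _ _ hy => h y hy.2) (Nat.zero_le _)
    rw [this]; rfl
  | step k g g' hr hs ih =>
    obtain ⟨B, hB, hgB, hgood⟩ := ih
    have hsub := hr.sub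
    rcases hs with ⟨r, hrE, t1, t2⟩ | ⟨s, d, hs1, hs2, hs3, hg, hgap, t1, t2, t3, t4⟩
    · refine ⟨insert (z r) B, (Finset.card_insert_le _ _).trans (by omega), ?_, ?_⟩
      · intro x hx
        by_cases e : x = r
        · subst e; exact Finset.mem_insert_self _ _
        · exact Finset.mem_insert_of_mem (hgB x ((t2 x e).1 hx))
      · intro hc
        have hnot : z r ∉ B := by
          intro hin
          rw [Finset.insert_eq_of_mem hin] at hc; omega
        rw [Finset.card_insert_of_notMem hnot] at hc
        obtain ⟨g1, g2⟩ := hgood (by omega)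
        refine ⟨?_, ?_⟩
        · intro x y hx hy hxy
          by_cases e1 : x = r
          · by_cases e2 : y = r
            · omega
            · exact absurd (by rw [← e1, hxy]; exact hgB y ((t2 y e2).1 hy)) hnot
          · by_cases e2 : y = r
            · exact absurd (by rw [← e2, ← hxy]; exact hgB x ((t2 x e1).1 hx)) hnot
            · exact g1 x y ((t2 x e1).1 hx) ((t2 y e2).1 hy) hxy
        · rw [← g2]
          refine V_congr_from (f := F g) (f' := F g') (a := 0) (b := N) rfl
            (fun y _ _ => ?_) (Nat.zero_le _)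
          have hgr : ¬ g r := fun h' => hnot (hgB r h')
          unfold F
          by_cases e1 : y = r
          · subst e1
            have hy1 : ¬ g (y + 1) := fun h' => hnot (by rw [← hz y hrE]; exact hgB _ h')
            have := t2 (y + 1) (by omega)
            tauto
          · by_cases e2 : y + 1 = r
            · have hy : ¬ g y := fun h' => hnot (by rw [← e2, hz y (hsub y h')]; exact hgB _ h')
              have := t2 y e1
              rw [← e2] at hgr
              tauto
            · rw [t2 y e1, t2 (y + 1) e2]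
    · have hzr : z (s + 2 * d + 3) = z (s + 2 * d + 2) := hz _ (hsub _ hg)
      have hzs : z (s + 1) = z s := hz _ hs1
      refine ⟨insert (z s) B, (Finset.card_insert_le _ _).trans (by omega), ?_, ?_⟩
      · intro x hx
        by_cases e1 : x = s
        · subst e1; exact Finset.mem_insert_self _ _
        by_cases e2 : x = s + 1
        · subst e2; rw [hzs]; exact Finset.mem_insert_self _ _
        by_cases e3 : x = s + 2 * d + 3
        · subst e3; rw [hzr]; exact Finset.mem_insert_of_mem (hgB _ hg)
        exact Finset.mem_insert_of_mem (hgB x ((t4 x e1 e2 e3).1 hx))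
      · intro hc
        have hnot : z s ∉ B := by
          intro hin
          rw [Finset.insert_eq_of_mem hin] at hc; omega
        rw [Finset.card_insert_of_notMem hnot] at hc
        obtain ⟨g1, g2⟩ := hgood (by omega)
        have hgs : ¬ g s := fun h' => hnot (hgB s h')
        have hgs1 : ¬ g (s + 1) := fun h' => hnot (by rw [← hzs]; exact hgB _ h')
        -- the place just below `s + 2 d + 2` is empty
        have hbelow : ¬ g (s + 2 * d + 1) := by
          rcases Nat.eq_zero_or_pos d with hd | hd
          · subst hd; simpa using hgs1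
          · exact hgap _ (by omega) (by omega)
        -- classification of the marks of `g'`
        have hcls : ∀ x, g' x → x = s ∨ x = s + 1 ∨ x = s + 2 * d + 3 ∨ g x := by
          intro x hx
          by_cases e1 : x = s
          · exact Or.inl e1
          by_cases e2 : x = s + 1
          · exact Or.inr (Or.inl e2)
          by_cases e3 : x = s + 2 * d + 3
          · exact Or.inr (Or.inr (Or.inl e3))
          exact Or.inr (Or.inr (Or.inr ((t4 x e1 e2 e3).1 hx)))
        have hzone : ∀ y, g y → z y = z (s + 2 * d + 2) → y = s + 2 * d + 2 ∨ y = s + 2 * d + 3 := by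
          intro y hy hzy
          have a1 := g1 y _ hy hg hzy
          have a2 := g1 _ y hg hy hzy.symm
          have a3 : y ≠ s + 2 * d + 1 := fun e => hbelow (e ▸ hy)
          omega
        have hBr : z (s + 2 * d + 2) ∈ B := hgB _ hg
        refine ⟨?_, ?_⟩
        · intro x y hx hy hxy
          rcases hcls x hx with e1 | e1 | e1 | e1 <;> rcases hcls y hy with e2 | e2 | e2 | e2
          · omega
          · omega
          · omega
          · exact absurd (by rw [← e1, hxy]; exact hgB y e2) hnot
          · omega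
          · omega
          · omega
          · exact absurd (by rw [← hzs, ← e1, hxy]; exact hgB y e2) hnot
          · exact absurd (by rw [← e2, ← hxy, e1, hzr]; exact hBr) hnot
          · exact absurd (by rw [← hzs, ← e2, ← hxy, e1, hzr]; exact hBr) hnot
          · omega
          · have := hzone y e2 (by rw [← hxy, e1, hzr]); omega
          · exact absurd (by rw [← e2, ← hxy]; exact hgB x e1) hnot
          · exact absurd (by rw [← hzs, ← e2, ← hxy]; exact hgB x e1) hnot
          · have := hzone x e1 (by rw [hxy, e2, hzr]); omega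
          · exact g1 x y e1 e2 hxy
        · rw [← g2]
          have hg' : g' (s + 2 * d + 2) := (t4 _ (by omega) (by omega) (by omega)).2 hg
          refine V_toggle (a := s) (d := d) ?_ ?_ ?_ ?_ (by have := hN _ hs3; omega)
          · unfold F; tauto
          · unfold F
            have e : s + 2 * d + 2 + 1 = s + 2 * d + 3 := rfl
            rw [e]; tauto
          · intro y hy1 hy2 hF
            by_cases e : y = s + 1
            · exact hgs1 (e ▸ hF.2)
            · exact hgap y (by omega) hy2 hF.2
          · intro y hy1 hy2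
            unfold F
            by_cases e1 : y = s + 1
            · -- `s + 2` is not marked in `g` nor in `g'`, unless excluded by zones
              have hn : ¬ g (y + 1) := fun h' => hnot (by
                rw [← hzs, ← hz _ hs2, ← e1]; exact hgB _ h')
              have := t4 (y + 1) (by omega) (by omega) (by omega)
              have hy : ¬ g y := e1 ▸ hgs1
              tauto
            by_cases e2 : y + 1 = s
            · have hy : ¬ g y := fun h' => hnot (by rw [← e2, hz y (hsub y h')]; exact hgB _ h')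
              have := t4 y (by omega) (by omega) (by omega)
              tauto
            by_cases e3 : y = s + 2 * d + 3
            · have hn : ¬ g (y + 1) := fun h' => by
                have := hzone _ h' (by rw [e3, hz _ hs3, hzr]); omega
              have := t4 (y + 1) (by omega) (by omega) (by omega)
              tauto
            rw [t4 y hy1 e1 e3, t4 (y + 1) e2 (by omega) (by omega)]

end Pool.Agent.MP_c2a681_co.H6
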