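import Pool.Agent.MP_c2a681_co.H6.Pal

set_option autoImplicit false

namespace Pool.Agent.MP_c2a681_co.H6

/-- Sparse binary numbers. -/
def W (q a b : ℕ) : ℕ := ∑ i ∈ Finset.Ico a b, 2 ^ (q * i)

theorem W_self (q a : ℕ) : W q a a = 0 := by simp [W]

theorem W_top (q : ℕ) {a b : ℕ} (h : a ≤ b) : W q a (b + 1) = W q a b + 2 ^ (q * b) := by
  unfold W; rw [Finset.sum_Ico_succ_top h]

theorem W_bot (q : ℕ) {a b : ℕ} (h : a < b) : W q a b = 2 ^ (q * a) + W q (a + 1) b := by
  unfold W; rw [Finset.sum_eq_sum_Ico_succ_bot h]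

theorem W_split (q : ℕ) {a b c : ℕ} (h1 : a ≤ b) (h2 : b ≤ c) : W q a c = W q a b + W q b c := by
  unfold W; rw [Finset.sum_Ico_consecutive _ h1 h2]

theorem W_dvd (q a b e : ℕ) (h : e ≤ q * a) : 2 ^ e ∣ W q a b := by
  unfold W
  refine Finset.dvd_sum (fun i hi => pow_dvd_pow 2 (h.trans ?_))
  exact Nat.mul_le_mul_left q (Finset.mem_Ico.1 hi).1

theorem W_eq_image {q : ℕ} (hq : 0 < q) (I : Finset ℕ) :
    ∑ i ∈ I, 2 ^ (q * i) = ∑ y ∈ I.image (q * ·), 2 ^ y := by
  rw [Finset.sum_image]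
  intro x _ y _ h
  exact Nat.eq_of_mul_eq_mul_left hq h

theorem W_lt {q : ℕ} (hq : 0 < q) (a b e : ℕ) (h : ∀ i, i < b → q * i < e) : W q a b < 2 ^ e := by
  unfold W
  rw [W_eq_image hq]
  refine Nat.geomSum_lt le_rfl ?_
  intro y hy
  obtain ⟨i, hi, rfl⟩ := Finset.mem_image.1 hy
  exact h i (Finset.mem_Ico.1 hi).2

theorem W_shift (q c s : ℕ) : 2 ^ (q * c) * W q 0 s = W q c (c + s) := by
  induction s with
  | zero => simp [W]
  | succ s ih =>
    rw [W_top q (Nat.zero_le s), ← add_assoc, W_top q (Nat.le_add_right c s), mul_add, ih,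
      ← pow_add, ← mul_add]

theorem testBit_sum (S : Finset ℕ) (y : ℕ) : (∑ i ∈ S, 2 ^ i).testBit y = true ↔ y ∈ S := by
  rw [← Nat.mem_bitIndices, ← List.mem_toFinset, Finset.toFinset_bitIndices_sum_two_pow]

theorem pal_self (u : ℕ → Bool) (i : ℕ) : Pal u i i := by
  intro a b ha hb hab; omega

theorem Chain.pad {u : ℕ → Bool} {k n : ℕ} (h : Chain u k n) : Chain u (k + 1) n :=
  Chain.step k n n h le_rfl (pal_self u n)

theorem pal_two {u : ℕ → Bool} {i : ℕ} (h : u i = u (i + 1)) : Pal u i (i + 2) := by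
  intro a b ha hb hab
  have : (a = i ∧ b = i + 1) ∨ (a = i + 1 ∧ b = i) := by omega
  rcases this with ⟨rfl, rfl⟩ | ⟨rfl, rfl⟩
  · exact h
  · exact h.symm

section
variable {u : ℕ → Bool} (hu : ∀ n : ℕ, u (2 * n) = false ∧ u (2 * n + 1) = !(u n))
include hu

theorem pal_lift {i j : ℕ} (h : Pal u i j) (e : ℕ) :
    ∀ z z' : ℕ, z + z' + 1 = 2 ^ e → Pal u (2 ^ e * i + z) (2 ^ e * j + z') := by
  induction e with
  | zero =>
    intro z z' hz
    have h1 : z = 0 := by omega
    have h2 : z' = 0 := by omega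
    subst h1 h2; simpa using h
  | succ e ih =>
    intro z z' hz
    rw [pow_succ] at hz
    have := pal_double hu (c := z % 2) (by omega) (ih (z / 2) (z' / 2) (by omega))
    have e1 : 2 * (2 ^ e * i + z / 2) + z % 2 = 2 ^ (e + 1) * i + z := by
      rw [pow_succ, mul_comm (2 ^ e) 2, mul_assoc]; omega
    have e2 : 2 * (2 ^ e * j + z' / 2) + 1 - z % 2 = 2 ^ (e + 1) * j + z' := by
      rw [pow_succ, mul_comm (2 ^ e) 2, mul_assoc]; omega
    rwa [e1, e2] at this

theorem false_form (d x : ℕ) : ∃ m, m + 1 = 2 ^ (2 * d) * (2 * x + 1) ∧ u m = false := by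
  induction d with
  | zero => exact ⟨2 * x, by simp, (hu x).1⟩
  | succ d ih =>
    obtain ⟨m, h1, h2⟩ := ih
    refine ⟨2 * (2 * m + 1) + 1, ?_, ?_⟩
    · have : 2 ^ (2 * (d + 1)) * (2 * x + 1) = 4 * (2 ^ (2 * d) * (2 * x + 1)) := by ring
      omega
    · rw [(hu _).2, (hu _).2, h2]; rfl

theorem add_one_bit {k hi lo r : ℕ} (h : Chain u k (hi + lo)) (hhi : 2 ^ (r + 2) ∣ hi)
    (hlo : lo < 2 ^ r) : Chain u (k + 2) (hi + 2 ^ (r + 1) + lo) := by
  obtain ⟨x, rfl⟩ := hhi
  have p1 : 2 ^ (r + 1) = 2 * 2 ^ r := by ring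
  have p2 : 2 ^ (r + 2) = 4 * 2 ^ r := by ring
  have s1 := pal_lift hu (pal_self u (2 * x)) (r + 1) lo (2 ^ (r + 1) - 1 - lo) (by omega)
  have s2 := pal_lift hu (pal_self u x) (r + 2) (2 ^ (r + 1) - 1 - lo) (2 ^ (r + 1) + lo) (by omega)
  have e : 2 ^ (r + 1) * (2 * x) = 2 ^ (r + 2) * x := by ring
  rw [e] at s1
  rw [add_assoc]
  exact Chain.step _ _ _ (Chain.step _ _ _ h (by omega) s1) (by omega) s2

theorem add_two_bits {k hi lo s d : ℕ} (h : Chain u k (hi + lo)) (hhi : 2 ^ (s + 2 * d + 3) ∣ hi)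
    (hlo : lo < 2 ^ s) : Chain u (k + 2) (hi + 2 ^ (s + 2 * d + 2) + 2 ^ s + lo) := by
  obtain ⟨x, rfl⟩ := hhi
  obtain ⟨m, h1, h2⟩ := false_form hu (d + 1) x
  have h3 : u (m + 1) = false := by
    have : m + 1 = 2 * (2 ^ (2 * d + 1) * (2 * x + 1)) := by rw [h1]; ring
    rw [this]; exact (hu _).1
  have hle : 2 * 2 ^ s ≤ 2 ^ (s + 2 * d + 2) := by
    rw [← pow_succ']; exact Nat.pow_le_pow_right (by norm_num) (by omega)
  have s1 := pal_lift hu (pal_self u (2 * x)) (s + 2 * d + 2) lo (2 ^ (s + 2 * d + 2) - 1 - lo)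
    (by omega)
  have s2 := pal_lift hu (pal_two (h2.trans h3.symm)) s (2 ^ s - 1 - lo) lo (by omega)
  have e : 2 ^ (s + 2 * d + 2) * (2 * x) = 2 ^ (s + 2 * d + 3) * x := by ring
  have e' : 2 ^ s * m + 2 ^ s = 2 ^ (s + 2 * d + 3) * x + 2 ^ (s + 2 * d + 2) := by
    rw [← Nat.mul_succ, Nat.succ_eq_add_one, h1]; ring
  have e1 : 2 ^ s * m + (2 ^ s - 1 - lo) = 2 ^ (s + 2 * d + 3) * x + (2 ^ (s + 2 * d + 2) - 1 - lo) := by
    omega
  have e2 : 2 ^ s * (m + 2) + lo = 2 ^ (s + 2 * d + 3) * x + 2 ^ (s + 2 * d + 2) + 2 ^ s + lo := by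
    rw [mul_add]; omega
  rw [e] at s1
  rw [e1, e2] at s2
  exact Chain.step _ _ _ (Chain.step _ _ _ h (by omega) s1) (by omega) s2

theorem close_hole {q : ℕ} (hq : 0 < q) (j : ℕ) : ∀ k a t b : ℕ, a ≤ t → t + 2 * j + 1 ≤ b →
    Chain u k (W q a t + W q (t + 2 * j + 1) b) →
    Chain u (k + 2 * j) (W q a (t + j) + W q (t + j + 1) b) := by
  induction j with
  | zero => intro k a t b _ _ h; simpa using h
  | succ j ih =>
    intro k a t b hat hb h
    obtain ⟨d, hd⟩ : ∃ d, q * (j + 1) = d + 1 := ⟨q * (j + 1) - 1, by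
      have : 0 < q * (j + 1) := Nat.mul_pos hq (by omega)
      omega⟩
    have hr : q * t + 2 * d + 2 = q * (t + 2 * j + 2) := by
      have : q * (t + 2 * j + 2) = q * t + 2 * (q * (j + 1)) := by ring
      omega
    rw [add_comm] at h
    have h2 := add_two_bits hu (s := q * t) (d := d) h
      (W_dvd q _ _ _ (by
        have : q * (t + 2 * (j + 1) + 1) = q * (t + 2 * j + 2) + q := by ring
        omega))
      (W_lt hq _ _ _ (fun i hi => Nat.mul_lt_mul_of_pos_left hi hq))
    have e : W q (t + 2 * (j + 1) + 1) b + 2 ^ (q * t + 2 * d + 2) + 2 ^ (q * t) + W q a t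
        = W q a (t + 1) + W q (t + 1 + 2 * j + 1) b := by
      rw [W_top q hat, W_bot q (a := t + 1 + 2 * j + 1) (by omega), hr]
      have e1 : t + 1 + 2 * j + 1 = t + 2 * j + 2 := by ring
      have e2 : t + 2 * (j + 1) + 1 = t + 2 * j + 2 + 1 := by ring
      rw [e1, e2]; ring
    rw [e] at h2
    have := ih (k + 2) a (t + 1) b (by omega) (by omega) h2
    have e3 : k + 2 + 2 * j = k + 2 * (j + 1) := by ring
    have e4 : t + 1 + j = t + (j + 1) := by ring
    rwa [e3, e4] at this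

theorem fill_hole {q : ℕ} (hq : 2 ≤ q) {k a t b : ℕ} (hat : a ≤ t) (ht : 1 ≤ t) (hb : t < b)
    (h : Chain u k (W q a t + W q (t + 1) b)) : Chain u (k + 2) (W q a b) := by
  obtain ⟨r, hr⟩ : ∃ r, q * t = r + 1 := ⟨q * t - 1, by
    have : 0 < q * t := Nat.mul_pos (by omega) (by omega)
    omega⟩
  rw [add_comm] at h
  have h2 := add_one_bit hu (r := r) h
    (W_dvd q _ _ _ (by rw [mul_add]; omega))
    (W_lt (by omega) _ _ _ (fun i hi => by
      have : q * (i + 1) ≤ q * t := Nat.mul_le_mul_left q hi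
      rw [mul_add] at this; omega))
  have e : W q (t + 1) b + 2 ^ (r + 1) + W q a t = W q a b := by
    rw [W_split q hat hb.le, W_bot q hb, hr]; ring
  rwa [e] at h2

theorem interval_odd {q : ℕ} (hq : 2 ≤ q) {a : ℕ} (ha : 1 ≤ a) (j : ℕ) :
    Chain u (2 * j + 2) (W q a (a + 2 * j + 1)) := by
  have h0 : Chain u 0 (W q a a + W q (a + 2 * j + 1) (a + 2 * j + 1)) := by
    rw [W_self, W_self]; exact Chain.zero
  have h1 := close_hole hu (by omega : 0 < q) j 0 a a _ le_rfl le_rfl h0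
  have h2 := fill_hole hu hq (by omega) (by omega) (by omega) h1
  rwa [Nat.zero_add] at h2

theorem interval_bound {q : ℕ} (hq : 2 ≤ q) {a : ℕ} (ha : 1 ≤ a) (l : ℕ) :
    Chain u (l + 2) (W q a (a + l)) := by
  rcases Nat.even_or_odd' l with ⟨j, rfl | rfl⟩
  · rcases j with _ | j
    · simp only [mul_zero, add_zero, W_self]; exact Chain.zero.pad.pad
    · have h0 : Chain u 2 (W q a a + W q (a + 2 * j + 1) (a + 2 * (j + 1))) := by
        rw [W_self, Nat.zero_add]
        have := interval_odd hu hq (a := a + 2 * j + 1) (by omega) 0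
        exact this
      have h1 := close_hole hu (by omega : 0 < q) j 2 a a _ le_rfl (by omega) h0
      have h2 := fill_hole hu hq (by omega) (by omega) (by omega) h1
      have e : 2 + 2 * j + 2 = 2 * (j + 1) + 2 := by ring
      rwa [e] at h2
  · exact (interval_odd hu hq ha j).pad

theorem upper_diag {q : ℕ} (hq : 2 ≤ q) (t : ℕ) :
    Chain u (2 * t) (W q 1 (t + 1) + W q (t + 2) (t + 2 + t)) := by
  have h0 : Chain u 0 (W q 1 1 + W q (1 + 2 * t + 1) (t + 2 + t)) := by
    have : 1 + 2 * t + 1 = t + 2 + t := by ring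
    rw [this, W_self, W_self]; exact Chain.zero
  have h1 := close_hole hu (by omega : 0 < q) t 0 1 1 _ le_rfl (by omega) h0
  have e1 : 1 + t = t + 1 := by ring
  rwa [Nat.zero_add, e1] at h1

theorem upper_all {q : ℕ} (hq : 2 ≤ q) (s t : ℕ) :
    Chain u (s + t + 2) (W q 1 (t + 1) + W q (t + 2) (t + 2 + s)) := by
  rcases le_total s t with h | h
  · obtain ⟨l, rfl⟩ := Nat.exists_eq_add_of_le h
    have h0 : Chain u (l + 2) (W q 1 (1 + l) + W q (1 + l + 2 * s + 1) (s + l + 2 + s)) := by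
      have : 1 + l + 2 * s + 1 = s + l + 2 + s := by ring
      rw [this, W_self, add_zero]; exact interval_bound hu hq le_rfl l
    have h1 := close_hole hu (by omega : 0 < q) s _ 1 (1 + l) _ (by omega) (by omega) h0
    have e1 : 1 + l + s = s + l + 1 := by ring
    have e2 : l + 2 + 2 * s = s + (s + l) + 2 := by ring
    rwa [e1, e2] at h1
  · obtain ⟨l, rfl⟩ := Nat.exists_eq_add_of_le h
    have h0 : Chain u (l + 2) (W q 1 1 + W q (1 + 2 * t + 1) (t + 2 + (t + l))) := by
      have : t + 2 + (t + l) = 1 + 2 * t + 1 + l := by ring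
      rw [this, W_self, Nat.zero_add]; exact interval_bound hu hq (by omega) l
    have h1 := close_hole hu (by omega : 0 < q) t _ 1 1 _ le_rfl (by omega) h0
    have e1 : 1 + t = t + 1 := by ring
    have e2 : l + 2 + 2 * t = t + l + t + 2 := by ring
    rwa [e1, e2] at h1

end

/-- The index set with one hole. -/
def idx (s t : ℕ) : Finset ℕ := Finset.Ico 1 (t + 1) ∪ Finset.Ico (t + 2) (t + 2 + s)

theorem mem_idx {s t i : ℕ} : i ∈ idx s t ↔ (1 ≤ i ∧ i < t + 1) ∨ (t + 2 ≤ i ∧ i < t + 2 + s) := by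
  simp [idx]

theorem idx_disj (s t : ℕ) : Disjoint (Finset.Ico 1 (t + 1)) (Finset.Ico (t + 2) (t + 2 + s)) := by
  rw [Finset.disjoint_left]
  intro i h1 h2
  rw [Finset.mem_Ico] at h1 h2; omega

theorem card_idx (s t : ℕ) : (idx s t).card = s + t := by
  unfold idx
  rw [Finset.card_union_of_disjoint (idx_disj s t)]; simp; omega

theorem bit_family {q : ℕ} (hq : 0 < q) (s t y : ℕ) :
    (W q 1 (t + 1) + W q (t + 2) (t + 2 + s)).testBit y = true ↔ ∃ i ∈ idx s t, y = q * i := by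
  unfold W
  rw [← Finset.sum_union (idx_disj s t), W_eq_image hq, testBit_sum, Finset.mem_image]
  constructor
  · rintro ⟨i, hi, rfl⟩; exact ⟨i, hi, rfl⟩
  · rintro ⟨i, hi, rfl⟩; exact ⟨i, hi, rfl⟩

theorem V_family {q : ℕ} (hq : q % 2 = 1) (s t : ℕ) (f : ℕ → Prop)
    (hf : ∀ y, f y ↔ ∃ i ∈ idx s t, y = q * i) {N : ℕ} (hN : q * (t + 2 + s) ≤ N) :
    V f N = (-1) ^ (t + s) * ((t : ℤ) - s) := by
  have hq0 : 0 < q := by omega
  have gap : ∀ i, V f (q * (i + 1)) = V f (q * i + 1) := by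
    intro i
    refine V_const (fun y h1 h2 hy => ?_) (by rw [mul_add]; omega)
    obtain ⟨j, _, rfl⟩ := (hf y).1 hy
    have a1 : i < j := Nat.lt_of_mul_lt_mul_left (a := q) (by omega)
    have a2 : j < i + 1 := Nat.lt_of_mul_lt_mul_left h2
    omega
  have hin : ∀ i, i ∈ idx s t → V f (q * (i + 1)) = (-1) ^ i - V f (q * i) := by
    intro i hi
    rw [gap, V_pos ((hf _).2 ⟨i, hi, rfl⟩), pow_mul, Odd.neg_one_pow (Nat.odd_iff.2 hq)]
  have hout : ∀ i, i ∉ idx s t → V f (q * (i + 1)) = V f (q * i) := by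
    intro i hi
    rw [gap, V_neg]
    intro h
    obtain ⟨j, hj, e⟩ := (hf _).1 h
    exact hi (Nat.eq_of_mul_eq_mul_left hq0 e ▸ hj)
  have h1 : ∀ i, i ≤ t → V f (q * (i + 1)) = (-1) ^ i * (i : ℤ) := by
    intro i hi
    induction i with
    | zero => rw [hout 0 (by rw [mem_idx]; omega)]; simp [V]
    | succ i ih =>
      rw [hin (i + 1) (by rw [mem_idx]; omega), ih (by omega)]; push_cast; ring
  have h2 : ∀ m, m ≤ s → V f (q * (t + 2 + m)) = (-1) ^ (t + m) * ((t : ℤ) - m) := by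
    intro m hm
    induction m with
    | zero =>
      rw [add_zero, hout (t + 1) (by rw [mem_idx]; omega), h1 t le_rfl]; simp
    | succ m ih =>
      rw [← add_assoc, hin (t + 2 + m) (by rw [mem_idx]; omega), ih (by omega)]; push_cast; ring
  rw [← h2 s le_rfl]
  refine V_const (fun y h1 _ hy => ?_) hN
  obtain ⟨j, hj, rfl⟩ := (hf y).1 hy
  have a1 : t + 2 + s ≤ j := Nat.le_of_mul_le_mul_left h1 hq0
  rw [mem_idx] at hj; omega

theorem lower {u : ℕ → Bool} (hu : ∀ n : ℕ, u (2 * n) = false ∧ u (2 * n + 1) = !(u n))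
    {q s t k : ℕ} (hq : q % 2 = 1) (hq3 : 3 ≤ q) (hbig : 3 * (s + t) < q) (hk : k ≤ s + t)
    (h : Chain u k (W q 1 (t + 1) + W q (t + 2) (t + 2 + s))) : k = s + t ∧ s = t := by
  classical
  obtain ⟨E, hE, hr⟩ := chain_reach hu h
  set n := W q 1 (t + 1) + W q (t + 2) (t + 2 + s) with hn
  have hbit : ∀ y, n.testBit y = true ↔ ∃ i ∈ idx s t, y = q * i := bit_family (by omega) s t
  have hg : ∀ x, gray (2 * n + k % 2) (x + 1) ↔ gray n x := by
    intro x; rw [gray_succ]
    have : (2 * n + k % 2) / 2 = n := by omega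
    rw [this]
  let z : ℕ → ℕ := fun x => ((Finset.range x).filter (· ∉ E)).card
  have hz : ∀ x ∈ E, z (x + 1) = z x := by
    intro x hx
    simp only [z]
    rw [Finset.range_add_one, Finset.filter_insert, if_neg (by simpa using hx)]
  have hzlt : ∀ x y, x + E.card < y → z x < z y := by
    intro x y hxy
    simp only [z]
    obtain ⟨w, hw1, hw2⟩ : ∃ w ∈ Finset.Ico x y, w ∉ E := by
      by_contra hcon
      have hsub : Finset.Ico x y ⊆ E := by
        intro w hw; by_contra hne; exact hcon ⟨w, hw, hne⟩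
      have := Finset.card_le_card hsub
      rw [Nat.card_Ico] at this; omega
    rw [Finset.mem_Ico] at hw1
    apply Finset.card_lt_card
    refine ⟨fun v hv => ?_, fun hsub => ?_⟩
    · rw [Finset.mem_filter, Finset.mem_range] at hv ⊢
      exact ⟨by omega, hv.2⟩
    · have := @hsub w (by rw [Finset.mem_filter, Finset.mem_range]; exact ⟨hw1.2, hw2⟩)
      rw [Finset.mem_filter, Finset.mem_range] at this; omega
  obtain ⟨B, hB1, hB2, hB3⟩ := main_inv z hz (E.sup id + 1 + q * (t + 2 + s))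
    (fun x hx => by have : x ≤ E.sup id := Finset.le_sup (f := id) hx; omega) hr
  have near : ∀ i j c, 0 < c → c < q → q * i + c ≠ q * j := by
    intro i j c h0 h1 e
    have a1 : i < j := Nat.lt_of_mul_lt_mul_left (a := q) (by omega)
    have a2 : q * (i + 1) ≤ q * j := Nat.mul_le_mul_left q a1
    rw [mul_add] at a2; omega
  have hcard : s + t ≤ B.card := by
    rw [← card_idx s t]
    refine Finset.card_le_card_of_injOn (fun i => z (q * i + 1)) ?_ ?_
    · intro i hi
      apply hB2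
      rw [hg]; unfold gray
      rw [(hbit _).2 ⟨i, hi, rfl⟩]
      intro e
      obtain ⟨j, _, ej⟩ := (hbit _).1 e.symm
      exact near i j 1 (by omega) (by omega) ej
    · intro i _ j _ hij
      simp only at hij
      rcases lt_trichotomy i j with hlt | heq | hlt
      · have a2 : q * (i + 1) ≤ q * j := Nat.mul_le_mul_left q hlt
        rw [mul_add] at a2
        have := hzlt (q * i + 1) (q * j + 1) (by omega); omega
      · exact heq
      · have a2 : q * (j + 1) ≤ q * i := Nat.mul_le_mul_left q hlt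
        rw [mul_add] at a2
        have := hzlt (q * j + 1) (q * i + 1) (by omega); omega
  refine ⟨by omega, ?_⟩
  have hV := (hB3 (by omega)).2
  rw [V_family hq s t _ ?_ (by omega)] at hV
  · have : (t : ℤ) - s = 0 := by
      rcases mul_eq_zero.1 hV with h0 | h0
      · exact absurd h0 (pow_ne_zero _ (by norm_num))
      · exact h0
    omega
  · intro y
    unfold F
    rw [← hbit]
    have pos : ∀ i ∈ idx s t, 3 ≤ q * i := by
      intro i hi
      have : 1 ≤ i := by rw [mem_idx] at hi; omega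
      calc 3 ≤ q * 1 := by omega
        _ ≤ q * i := Nat.mul_le_mul_left q this
    rcases y with _ | y
    · rw [hg]; unfold gray
      have b0 : n.testBit 0 = false := by
        by_contra hc
        obtain ⟨i, hi, e⟩ := (hbit 0).1 (by simpa using hc)
        have := pos i hi; omega
      have b1 : n.testBit (0 + 1) = false := by
        by_contra hc
        obtain ⟨i, hi, e⟩ := (hbit (0 + 1)).1 (by simpa using hc)
        have := pos i hi; omega
      rw [b0, b1]; simp
    · rw [hg, hg]; unfold gray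
      have n1 : ¬ (n.testBit y = true ∧ n.testBit (y + 1) = true) := by
        rintro ⟨c1, c2⟩
        obtain ⟨i, _, e1⟩ := (hbit _).1 c1
        obtain ⟨j, _, e2⟩ := (hbit _).1 c2
        exact near i j 1 (by omega) (by omega) (by omega)
      have n2 : ¬ (n.testBit (y + 1) = true ∧ n.testBit (y + 1 + 1) = true) := by
        rintro ⟨c1, c2⟩
        obtain ⟨i, _, e1⟩ := (hbit _).1 c1
        obtain ⟨j, _, e2⟩ := (hbit _).1 c2
        exact near i j 1 (by omega) (by omega) (by omega)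
      have n3 : ¬ (n.testBit y = true ∧ n.testBit (y + 1 + 1) = true) := by
        rintro ⟨c1, c2⟩
        obtain ⟨i, _, e1⟩ := (hbit _).1 c1
        obtain ⟨j, _, e2⟩ := (hbit _).1 c2
        exact near i j 2 (by omega) (by omega) (by omega)
      revert n1 n2 n3
      cases n.testBit y <;> cases n.testBit (y + 1) <;> cases n.testBit (y + 1 + 1) <;> simp

end Pool.Agent.MP_c2a681_co.H6
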