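import Pool.Agent.MP_c2a681_co.H6.Core

set_option autoImplicit false

namespace Pool.Agent.MP_c2a681_co.H6

/-- The factor of `u` on the places `i, …, j - 1` is a palindrome. -/
def Pal (u : ℕ → Bool) (i j : ℕ) : Prop :=
  ∀ a b, i ≤ a → i ≤ b → a + b + 1 = i + j → u a = u b

/-- Gray code of `n`. -/
def gray (n x : ℕ) : Prop := n.testBit x ≠ n.testBit (x + 1)

theorem gray_succ (n x : ℕ) : gray n (x + 1) ↔ gray (n / 2) x := by
  simp [gray, Nat.testBit_succ]

theorem gray_zero (n : ℕ) : gray n 0 ↔ n % 2 ≠ n / 2 % 2 := by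
  unfold gray
  rw [Nat.testBit_succ, Nat.testBit_zero, Nat.testBit_zero]
  rcases Nat.mod_two_eq_zero_or_one n with h1 | h1 <;>
    rcases Nat.mod_two_eq_zero_or_one (n / 2) with h2 | h2 <;> simp [h1, h2]

theorem Step.shift {E : Finset ℕ} {g g' G G' : ℕ → Prop} (h : Step E g g')
    (h1 : ∀ x, G (x + 1) ↔ g x) (h2 : ∀ x, G' (x + 1) ↔ g' x) (h0 : G' 0 ↔ G 0) :
    Step (E.image (· + 1)) G G' := by
  rcases h with ⟨r, hr, t1, t2⟩ | ⟨s, d, a1, a2, a3, a4, a5, t1, t2, t3, t4⟩
  · refine Or.inl ⟨r + 1, Finset.mem_image_of_mem _ hr, by rw [h1, h2]; exact t1, ?_⟩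
    intro x hx
    rcases x with _ | x
    · exact h0
    · rw [h1, h2]; exact t2 x (by omega)
  · have e1 : s + 1 + 2 * d + 3 = (s + 2 * d + 3) + 1 := by ring
    have e2 : s + 1 + 2 * d + 2 = (s + 2 * d + 2) + 1 := by ring
    refine Or.inr ⟨s + 1, d, Finset.mem_image_of_mem _ a1, Finset.mem_image_of_mem _ a2,
      e1 ▸ Finset.mem_image_of_mem _ a3, by rw [e2, h1]; exact a4, ?_, by rw [h1, h2]; exact t1,
      by rw [h1, h2]; exact t2, by rw [e1, h1, h2]; exact t3, ?_⟩
    · intro x hx1 hx2
      rcases x with _ | x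
      · omega
      · rw [h1]; exact a5 x (by omega) (by omega)
    · intro x b1 b2 b3
      rcases x with _ | x
      · exact h0
      · rw [h1, h2]; exact t4 x (by omega) (by omega) (by omega)

/-- `m` ends in exactly `j` binary ones: the bits of `m` and `m + 1`. -/
def Tr (m j : ℕ) : Prop :=
  (∀ y, y < j → m.testBit y = true ∧ (m + 1).testBit y = false) ∧
  m.testBit j = false ∧ (m + 1).testBit j = true ∧
  ∀ y, j < y → (m + 1).testBit y = m.testBit y

theorem tr_even (x : ℕ) : Tr (2 * x) 0 := by
  refine ⟨fun y hy => absurd hy (Nat.not_lt_zero _), ?_, ?_, ?_⟩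
  · rw [Nat.testBit_zero]; simp
  · rw [Nat.testBit_zero]; simp [Nat.add_mod]
  · intro y hy
    rcases y with _ | y
    · omega
    · rw [Nat.testBit_succ, Nat.testBit_succ]
      congr 1; omega

theorem tr_step {m j : ℕ} (h : Tr m j) : Tr (2 * m + 1) (j + 1) := by
  obtain ⟨h1, h2, h3, h4⟩ := h
  have e1 : (2 * m + 1) / 2 = m := by omega
  have e2 : (2 * m + 1 + 1) / 2 = m + 1 := by omega
  refine ⟨?_, ?_, ?_, ?_⟩
  · intro y hy
    rcases y with _ | y
    · rw [Nat.testBit_zero, Nat.testBit_zero]
      constructor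
      · simp [Nat.add_mod]
      · have : (2 * m + 1 + 1) % 2 = 0 := by omega
        simp [this]
    · rw [Nat.testBit_succ, Nat.testBit_succ, e1, e2]; exact h1 y (by omega)
  · rw [Nat.testBit_succ, e1]; exact h2
  · rw [Nat.testBit_succ, e2]; exact h3
  · intro y hy
    rcases y with _ | y
    · omega
    · rw [Nat.testBit_succ, Nat.testBit_succ, e1, e2]; exact h4 y (by omega)

section
variable {u : ℕ → Bool} (hu : ∀ n : ℕ, u (2 * n) = false ∧ u (2 * n + 1) = !(u n))
include hu

theorem tr_of_true (m : ℕ) (hm : u m = true) : ∃ d, Tr m (2 * d + 1) := by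
  induction m using Nat.strong_induction_on with
  | _ m ih =>
    rcases Nat.even_or_odd' m with ⟨a, rfl | rfl⟩
    · rw [(hu a).1] at hm; exact absurd hm (by simp)
    · rw [(hu a).2] at hm
      rcases Nat.even_or_odd' a with ⟨b, rfl | rfl⟩
      · exact ⟨0, tr_step (tr_even b)⟩
      · rw [(hu b).2] at hm
        obtain ⟨d, hd⟩ := ih b (by omega) (by simpa using hm)
        exact ⟨d + 1, tr_step (tr_step hd)⟩

theorem pal_half {i j : ℕ} (hodd : (i + j) % 2 = 1) (h : Pal u i j) : Pal u (i / 2) (j / 2) := by
  intro a b ha hb hab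
  have := h (2 * a + 1) (2 * b + 1) (by omega) (by omega) (by omega)
  rw [(hu a).2, (hu b).2] at this
  simpa using this

theorem pal_double {i j c : ℕ} (hc : c ≤ 1) (h : Pal u i j) : Pal u (2 * i + c) (2 * j + 1 - c) := by
  intro a b ha hb hab
  rcases Nat.even_or_odd' a with ⟨a', rfl | rfl⟩ <;> rcases Nat.even_or_odd' b with ⟨b', rfl | rfl⟩
  · rw [(hu a').1, (hu b').1]
  · omega
  · omega
  · rw [(hu a').2, (hu b').2, h a' b' (by omega) (by omega) (by omega)]

theorem pal_even {i j : ℕ} (hij : i < j) (hev : (i + j) % 2 = 0) (h : Pal u i j) :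
    j = i + 2 ∧ u (i / 2) = true := by
  have hall : ∀ a, i ≤ a → a < j → u a = false := by
    intro a ha1 ha2
    rcases Nat.even_or_odd' a with ⟨a', rfl | rfl⟩
    · exact (hu a').1
    · have := h (2 * a' + 1) (2 * ((i + j) / 2 - 1 - a')) ha1 (by omega) (by omega)
      rw [this]; exact (hu _).1
  refine ⟨?_, ?_⟩
  · by_contra hne
    have h4 : i + 4 ≤ j := by omega
    have := hall (2 * (2 * ((i + 2) / 4)) + 1) (by omega) (by omega)
    rw [(hu _).2, (hu _).1] at this
    exact absurd this (by simp)
  · have := hall (2 * (i / 2) + 1) (by omega) (by omega)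
    rw [(hu _).2] at this
    simpa using this

theorem pal_step (j : ℕ) : ∀ i c : ℕ, i ≤ j → c ≤ 1 → Pal u i j →
    ∃ E : Finset ℕ, E.card ≤ 3 ∧ Step E (gray (2 * i + c)) (gray (2 * j + 1 - c)) := by
  induction j using Nat.strong_induction_on with
  | _ j ih =>
    intro i c hij hc h
    have d1 : (2 * i + c) / 2 = i := by omega
    have d2 : (2 * j + 1 - c) / 2 = j := by omega
    rcases Nat.eq_or_lt_of_le hij with rfl | hlt
    · refine ⟨{0}, by simp, Or.inl ⟨0, by simp, ?_, ?_⟩⟩
      · rw [gray_zero, gray_zero]; omega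
      · intro x hx
        rcases x with _ | x
        · omega
        · rw [gray_succ, gray_succ, d1, d2]
    rcases Nat.mod_two_eq_zero_or_one (i + j) with hev | hodd
    · obtain ⟨hj, hm⟩ := pal_even hu hlt hev h
      obtain ⟨d, t1, t2, t3, t4⟩ := tr_of_true hu _ hm
      have d3 : j / 2 = i / 2 + 1 := by omega
      have gI : ∀ x, gray (2 * i + c) (x + 2) ↔ gray (i / 2) x := by
        intro x; rw [gray_succ, gray_succ, d1]
      have gJ : ∀ x, gray (2 * j + 1 - c) (x + 2) ↔ gray (i / 2 + 1) x := by
        intro x; rw [gray_succ, gray_succ, d2, d3]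
      refine ⟨{0, 1, 2 * d + 3}, Finset.card_le_three, Or.inr ⟨0, d, by simp, by simp, by simp,
        ?_, ?_, ?_, ?_, ?_, ?_⟩⟩
      · rw [Nat.zero_add, gI]; unfold gray
        rw [(t1 (2 * d) (by omega)).1, t2]; simp
      · intro x hx1 hx2
        obtain ⟨y, rfl⟩ : ∃ y, x = y + 2 := ⟨x - 2, by omega⟩
        rw [gI]; unfold gray
        rw [(t1 y (by omega)).1, (t1 (y + 1) (by omega)).1]; simp
      · rw [gray_zero, gray_zero]; omega
      · rw [gray_succ, gray_succ, d1, d2, gray_zero, gray_zero]; omega
      · have e : 0 + 2 * d + 3 = (2 * d + 1) + 2 := by ring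
        rw [e, gI, gJ]; unfold gray
        rw [t2, t3, t4 (2 * d + 1 + 1) (by omega)]
        cases (i / 2).testBit (2 * d + 1 + 1) <;> simp
      · intro x b1 b2 b3
        obtain ⟨y, rfl⟩ : ∃ y, x = y + 2 := ⟨x - 2, by omega⟩
        rw [gI, gJ]; unfold gray
        rcases lt_trichotomy y (2 * d) with hy | hy | hy
        · rw [(t1 y (by omega)).1, (t1 (y + 1) (by omega)).1, (t1 y (by omega)).2,
            (t1 (y + 1) (by omega)).2]; simp
        · subst hy
          rw [(t1 (2 * d) (by omega)).1, (t1 (2 * d) (by omega)).2, t2, t3]; simp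
        · rw [t4 y (by omega), t4 (y + 1) (by omega)]
    · obtain ⟨E, hE, hs⟩ := ih (j / 2) (by omega) (i / 2) (i % 2) (by omega) (by omega)
        (pal_half hu hodd h)
      have e1 : 2 * (i / 2) + i % 2 = i := by omega
      have e2 : 2 * (j / 2) + 1 - i % 2 = j := by omega
      rw [e1, e2] at hs
      refine ⟨E.image (· + 1), Finset.card_image_le.trans hE, hs.shift ?_ ?_ ?_⟩
      · intro x; rw [gray_succ, d1]
      · intro x; rw [gray_succ, d2]
      · rw [gray_zero, gray_zero]; omega

end

/-- The initial factor of length `n` is a concatenation of exactly `k` palindromes. -/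
inductive Chain (u : ℕ → Bool) : ℕ → ℕ → Prop
  | zero : Chain u 0 0
  | step (k i j : ℕ) (h : Chain u k i) (hij : i ≤ j) (hp : Pal u i j) : Chain u (k + 1) j

theorem chain_reach {u : ℕ → Bool} (hu : ∀ n : ℕ, u (2 * n) = false ∧ u (2 * n + 1) = !(u n))
    {k n : ℕ} (h : Chain u k n) :
    ∃ E : Finset ℕ, E.card ≤ 3 * k ∧ Reach E k (gray (2 * n + k % 2)) := by
  induction h with
  | zero => exact ⟨∅, by simp, Reach.zero _ (by intro x; simp [gray])⟩
  | step k i j _ hij hp ih =>
    obtain ⟨E, hE, hr⟩ := ih
    obtain ⟨E', hE', hs⟩ := pal_step hu j i (k % 2) hij (by omega) hp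
    have e : 2 * j + 1 - k % 2 = 2 * j + (k + 1) % 2 := by omega
    rw [e] at hs
    refine ⟨E ∪ E', (Finset.card_union_le _ _).trans (by omega), ?_⟩
    exact Reach.step k _ _ (hr.mono Finset.subset_union_left) (hs.mono Finset.subset_union_right)

/-- The initial factor of length `n`. -/
def word (u : ℕ → Bool) (n : ℕ) : List Bool := List.ofFn (fun i : Fin n => u i.val)

/-- The factor on the places `i, …, j - 1`. -/
def seg (u : ℕ → Bool) (i j : ℕ) : List Bool := List.ofFn (fun a : Fin (j - i) => u (i + a.val))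

theorem word_length (u : ℕ → Bool) (n : ℕ) : (word u n).length = n := by simp [word]

theorem word_append (u : ℕ → Bool) {i j : ℕ} (hij : i ≤ j) : word u j = word u i ++ seg u i j := by
  apply List.ext_getElem
  · simp [word, seg]; omega
  · intro a h1 h2
    by_cases ha : a < i
    · rw [List.getElem_append_left (by simpa [word] using ha)]; simp [word]
    · rw [List.getElem_append_right (by simpa [word] using ha)]
      simp only [word, seg, List.getElem_ofFn, List.length_ofFn]
      congr 1; omega

theorem seg_pal (u : ℕ → Bool) {i j : ℕ} (hij : i ≤ j) :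
    (seg u i j).reverse = seg u i j ↔ Pal u i j := by
  constructor
  · intro h a b ha hb hab
    have hlen : (seg u i j).length = j - i := by simp [seg]
    have h1 : (seg u i j).reverse[a - i]'(by rw [List.length_reverse, hlen]; omega)
        = (seg u i j)[a - i]'(by rw [hlen]; omega) := by simp only [h]
    rw [List.getElem_reverse] at h1
    simp only [seg, List.getElem_ofFn, List.length_ofFn] at h1
    have e1 : i + (j - i - 1 - (a - i)) = b := by omega
    have e2 : i + (a - i) = a := by omega
    rw [e1, e2] at h1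
    exact h1.symm
  · intro h
    apply List.ext_getElem
    · simp
    · intro a h1 h2
      rw [List.getElem_reverse]
      simp only [seg, List.getElem_ofFn, List.length_ofFn] at h2 ⊢
      exact h _ _ (by omega) (by omega) (by omega)

theorem chain_of_list (u : ℕ → Bool) (L : List (List Bool)) : ∀ n : ℕ,
    (∀ w ∈ L, w.reverse = w) → L.flatten = word u n → Chain u L.length n := by
  induction L using List.reverseRecOn with
  | nil =>
    intro n _ h
    have : n = 0 := by
      have := congrArg List.length h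
      rw [word_length] at this
      simpa using this.symm
    subst this; exact Chain.zero
  | append_singleton L w ih =>
    intro n hp h
    rw [List.flatten_append, List.flatten_singleton] at h
    have hlen := congrArg List.length h
    rw [word_length, List.length_append] at hlen
    have hij : L.flatten.length ≤ n := by omega
    rw [word_append u hij] at h
    obtain ⟨h1, h2⟩ := List.append_inj h (by rw [word_length])
    rw [List.length_append, List.length_singleton]
    refine Chain.step _ _ _ (ih _ (fun v hv => hp v (List.mem_append_left _ hv)) h1) hij ?_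
    rw [← seg_pal u hij, ← h2]
    exact hp w (by simp)

theorem list_of_chain {u : ℕ → Bool} {k n : ℕ} (h : Chain u k n) :
    ∃ L : List (List Bool), L.length = k ∧ (∀ w ∈ L, w.reverse = w) ∧ L.flatten = word u n := by
  induction h with
  | zero => exact ⟨[], rfl, by simp, by simp [word]⟩
  | step k i j _ hij hp ih =>
    obtain ⟨L, h1, h2, h3⟩ := ih
    refine ⟨L ++ [seg u i j], by simp [h1], ?_, ?_⟩
    · intro w hw
      rcases List.mem_append.1 hw with hw | hw
      · exact h2 w hw
      · rw [List.mem_singleton.1 hw]; exact (seg_pal u hij).2 hp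
    · rw [List.flatten_append, List.flatten_singleton, h3, word_append u hij]

end Pool.Agent.MP_c2a681_co.H6
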